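import Pool.Agent.Y234.FP.Stm

set_option autoImplicit false

/-! FP-ZG: `x ^ (m-1) z` generates in degree `(m,1)`. -/

open MvPolynomial Pool.Agent.Results.MP_94ed3e_ag.FatPoint TensorProduct

namespace Pool.Agent.Y465.FP

open Pool.Agent.Y234.FP

universe u

section Gen

variable {T : Type u} [CommRing T] {n : ℕ} {A : Type} [AddCommGroup A] {w : Fin n → A}

/-- multiplication by a monomial -/
noncomputable def mulH {a a' : A} (v : Fin n →₀ ℕ) (h : Finsupp.weight w v + a = a') :
    weightedHomogeneousSubmodule T w a →ₗ[T] weightedHomogeneousSubmodule T w a' :=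
  LinearMap.codRestrict _ (LinearMap.mulLeft T (monomial v (1 : T)) ∘ₗ
    (weightedHomogeneousSubmodule T w a).subtype) (by
    rintro ⟨F, hF⟩
    rw [← h]
    exact (isWeightedHomogeneous_monomial w v (1 : T) rfl).mul hF)

/-- multiplication by a monomial on the graded pieces -/
noncomputable def mulQ (I : Ideal (MvPolynomial (Fin n) T)) {a a' : A} (v : Fin n →₀ ℕ)
    (h : Finsupp.weight w v + a = a') : GradedPiece w I a →ₗ[T] GradedPiece w I a' :=
  Submodule.mapQ _ _ (mulH v h) (by
    rintro ⟨F, hF⟩ hFI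
    exact I.mul_mem_left _ hFI)

/-- the class of a monomial -/
noncomputable def cl (I : Ideal (MvPolynomial (Fin n) T)) {a : A} (v : Fin n →₀ ℕ)
    (h : Finsupp.weight w v = a) : GradedPiece w I a :=
  Submodule.Quotient.mk ⟨monomial v 1, isWeightedHomogeneous_monomial w v 1 h⟩

theorem mulQ_cl (I : Ideal (MvPolynomial (Fin n) T)) {a a' : A} (v v' : Fin n →₀ ℕ)
    (h : Finsupp.weight w v + a = a') (h' : Finsupp.weight w v' = a)
    (h'' : Finsupp.weight w (v + v') = a') :
    mulQ I v h (cl I v' h') = cl I (v + v') h'' := by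
  change Submodule.Quotient.mk (mulH v h _) = Submodule.Quotient.mk _
  congr 1
  apply Subtype.ext
  change monomial v (1 : T) * monomial v' (1 : T) = monomial (v + v') 1
  rw [monomial_mul, one_mul]

theorem cl_zero (I : Ideal (MvPolynomial (Fin n) T)) {a : A} (v : Fin n →₀ ℕ)
    (h : Finsupp.weight w v = a) (hv : monomial v (1 : T) ∈ I) : cl I v h = 0 :=
  (Submodule.Quotient.mk_eq_zero _).2 hv

theorem cl_mem (I : Ideal (MvPolynomial (Fin n) T)) {a : A} (N : Submodule T (GradedPiece w I a))
    (hN : ∀ (v : Fin n →₀ ℕ) (h : Finsupp.weight w v = a), cl I v h ∈ N) : N = ⊤ := by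
  classical
  rw [eq_top_iff]
  rintro q -
  obtain ⟨⟨F, hF⟩, rfl⟩ := Submodule.mkQ_surjective _ q
  have hw : ∀ v : F.support, Finsupp.weight w v.1 = a := fun v => hF (mem_support_iff.1 v.2)
  have h1 : (⟨F, hF⟩ : weightedHomogeneousSubmodule T w a) =
      ∑ v ∈ F.support.attach, coeff v.1 F •
        (⟨monomial v.1 1, isWeightedHomogeneous_monomial w v.1 1 (hw v)⟩ :
          weightedHomogeneousSubmodule T w a) := by
    apply Subtype.ext
    rw [AddSubmonoidClass.coe_finsetSum]
    simp only [Submodule.coe_smul, smul_monomial, smul_eq_mul, mul_one]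
    rw [Finset.sum_attach F.support (fun v => monomial v (coeff v F))]
    exact F.as_sum
  rw [h1, map_sum]
  refine Submodule.sum_mem _ fun v _ => ?_
  rw [map_smul]
  exact Submodule.smul_mem _ _ (hN v.1 (hw v))

theorem tmul_eq_zero {L : Type u} [AddCommGroup L] [Module T L] (M : Ideal T) (x : L)
    (hx : (1 : T ⧸ M) ⊗ₜ[T] x = 0) : x ∈ (M • ⊤ : Submodule T L) := by
  have h1 : TensorProduct.quotTensorEquivQuotSMul L M ((1 : T ⧸ M) ⊗ₜ[T] x) =
      Submodule.Quotient.mk x := by
    have h2 := TensorProduct.quotTensorEquivQuotSMul_mk_tmul M (1 : T) x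
    rw [one_smul] at h2
    exact h2
  rw [hx, map_zero] at h1
  exact (Submodule.Quotient.mk_eq_zero _).1 h1.symm

/-- a generator of a module which is locally free of rank one -/
theorem span_eq_top {L : Type u} [AddCommGroup L] [Module T L] (hL : LocallyFreeOfRank T L 1)
    (e : L) (he : ∀ M : Ideal T, M.IsMaximal → e ∉ (M • ⊤ : Submodule T L)) :
    Submodule.span T {e} = ⊤ := by
  by_contra hne
  have hfin : Module.Finite T L := hL.1
  set N0 := Submodule.span T {e} with hN0
  have h𝔞 : Module.annihilator T (L ⧸ N0) ≠ ⊤ := by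
    intro h
    apply hne
    have h1 : (1 : T) ∈ Module.annihilator T (L ⧸ N0) := by rw [h]; trivial
    rw [Module.mem_annihilator] at h1
    rw [eq_top_iff]
    intro x _
    have h2 := h1 (Submodule.Quotient.mk x)
    rw [one_smul] at h2
    exact (Submodule.Quotient.mk_eq_zero _).1 h2
  obtain ⟨M, hM, hle⟩ := Ideal.exists_le_maximal _ h𝔞
  let _ : Field (T ⧸ M) := Ideal.Quotient.field M
  have h1 := hL.finrank_baseChange (T ⧸ M)
  have hv0 : (1 : T ⧸ M) ⊗ₜ[T] e ≠ 0 := fun h => he M hM (tmul_eq_zero M e h)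
  have h2 := (finrank_eq_one_iff_of_nonzero' _ hv0).1 h1
  have htop : (⊤ : Submodule T (L ⧸ N0)) ≤ M • ⊤ := by
    rintro q -
    obtain ⟨g, rfl⟩ := Submodule.mkQ_surjective _ q
    obtain ⟨c, hc⟩ := h2 ((1 : T ⧸ M) ⊗ₜ[T] g)
    obtain ⟨t, rfl⟩ := Ideal.Quotient.mk_surjective c
    have h3 : (1 : T ⧸ M) ⊗ₜ[T] (g - t • e) = 0 := by
      rw [TensorProduct.tmul_sub, ← hc, TensorProduct.smul_tmul', TensorProduct.tmul_smul,
        TensorProduct.smul_tmul', sub_eq_zero]
      congr 1
    have h4 := tmul_eq_zero M _ h3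
    have h5 : N0.mkQ g = N0.mkQ (g - t • e) := by
      rw [map_sub, eq_comm, sub_eq_self]
      exact (Submodule.Quotient.mk_eq_zero _).2
        (Submodule.smul_mem _ _ (Submodule.mem_span_singleton_self e))
    rw [h5]
    have h6 := Submodule.mem_map_of_mem (f := N0.mkQ) h4
    rw [Submodule.map_smul''] at h6
    exact Submodule.smul_mono le_rfl le_top h6
  obtain ⟨c, hc1, hc2⟩ := Submodule.exists_sub_one_mem_and_smul_eq_zero_of_fg_of_le_smul M
    (⊤ : Submodule T (L ⧸ N0)) Module.Finite.fg_top htop
  have hc : c ∈ Module.annihilator T (L ⧸ N0) := by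
    rw [Module.mem_annihilator]
    exact fun q => hc2 q trivial
  apply hM.ne_top
  rw [Ideal.eq_top_iff_one]
  have h7 := M.sub_mem (hle hc) hc1
  rwa [sub_sub_cancel] at h7

end Gen

theorem ne1 {r : ℕ} (i : Fin r) : (i.succ.succ : Fin (r + 2)) ≠ 1 := by
  intro h
  have := congrArg Fin.val h
  simp at this

theorem ne0 {r : ℕ} (i : Fin r) : (i.succ.succ : Fin (r + 2)) ≠ 0 := Fin.succ_ne_zero _

theorem one_ne0 {r : ℕ} : (1 : Fin (r + 2)) ≠ 0 := by
  intro h
  have := congrArg Fin.val h
  simp at this

theorem t_ZG (hWE : St_WE) (hHV : St_HV) : St_ZG.{u} := by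
  classical
  intro T _ r m hm I hI i
  obtain ⟨-, hHV2, hHV3⟩ := hHV r m (by omega)
  obtain ⟨a, ha⟩ : ∃ a : ℤ × ℤ, a = ((m : ℤ), ((1 : ℕ) : ℤ)) := ⟨_, rfl⟩
  obtain ⟨a', ha'⟩ : ∃ a' : ℤ × ℤ, a' = (((2 * m - 1 : ℕ) : ℤ), (m : ℤ)) := ⟨_, rfl⟩
  have hL : LocallyFreeOfRank T (GradedPiece (wt r) I a) 1 := by
    have h1 : hf r m a = 1 := by
      rw [ha]
      exact hHV3 m 1 le_rfl (by omega) (by omega)
    have h2 := hI.2 a
    rwa [h1] at h2
  have hL' : LocallyFreeOfRank T (GradedPiece (wt r) I a') 1 := by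
    have h1 : hf r m a' = 1 := by
      rw [ha']
      exact hHV3 (2 * m - 1) m (by omega) (by omega) le_rfl
    have h2 := hI.2 a'
    rwa [h1] at h2
  obtain ⟨e0, he0⟩ : ∃ e0 : Fin (r + 2) →₀ ℕ, e0 = Finsupp.single 0 (m - 1) + Finsupp.single 1 1 :=
    ⟨_, rfl⟩
  have e00 : e0 0 = m - 1 := by
    rw [he0, Finsupp.add_apply, Finsupp.single_eq_same, Finsupp.single_apply, if_neg one_ne0,
      add_zero]
  have e01 : e0 1 = 1 := by
    rw [he0, Finsupp.add_apply, Finsupp.single_eq_same, Finsupp.single_apply, if_neg one_ne0.symm,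
      zero_add]
  have e0s : ∀ j : Fin r, e0 j.succ.succ = 0 := by
    intro j
    rw [he0, Finsupp.add_apply, Finsupp.single_apply, Finsupp.single_apply, if_neg (ne0 j).symm,
      if_neg (ne1 j).symm, add_zero]
  have hwe0 : Finsupp.weight (wt r) e0 = a := by
    rw [hWE, ha]
    have h1 : ax e0 = m := by
      unfold ax
      omega
    have h2 : bx e0 = 1 := by
      unfold bx yd
      rw [e01, Finset.sum_eq_zero fun j _ => e0s j, add_zero]
    rw [h1, h2]
  have hnot : ∀ M : Ideal T, M.IsMaximal →
      cl I e0 hwe0 ∉ (M • ⊤ : Submodule T (GradedPiece (wt r) I a)) := by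
    intro M hM hmem
    have hmon : ∀ (u : Fin (r + 2) →₀ ℕ) (hu : Finsupp.weight (wt r) u = a'),
        cl I u hu ∈ (M • ⊤ : Submodule T (GradedPiece (wt r) I a')) := by
      intro u hu
      have hu2 := hu
      rw [hWE, ha', Prod.mk.injEq] at hu2
      have h1 : ax u = 2 * m - 1 := by exact_mod_cast hu2.1
      have h2 : bx u = m := by exact_mod_cast hu2.2
      unfold ax at h1
      unfold bx at h2
      by_cases h3 : u 1 = 0
      · rw [cl_zero I u hu]
        · exact zero_mem _
        · -- the part in the variables `y`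
          obtain ⟨v, hv⟩ : ∃ v : Fin (r + 2) →₀ ℕ, v = u.erase 0 := ⟨_, rfl⟩
          have hsum : Finsupp.single 0 (u 0) + v = u := by
            rw [hv]
            exact Finsupp.single_add_erase 0 u
          have hv0 : v 0 = 0 := by rw [hv, Finsupp.erase_same]
          have hv1 : v 1 = 0 := by rw [hv, Finsupp.erase_ne one_ne0, h3]
          have hvs : yd v = yd u := by
            unfold yd
            refine Finset.sum_congr rfl fun j _ => ?_
            rw [hv, Finsupp.erase_ne (ne0 j)]
          have hvI : monomial v (1 : T) ∈ I := by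
            apply monomial_mem_of_degree_zero hI
            rw [hWE]
            have h4 : ax v = 0 := by unfold ax; omega
            have h5 : bx v = m := by unfold bx; omega
            rw [h4, h5]
            exact_mod_cast hHV2 m le_rfl
          have h6 : monomial u (1 : T) = monomial (Finsupp.single 0 (u 0)) 1 * monomial v 1 := by
            rw [monomial_mul, one_mul, hsum]
          rw [h6]
          exact I.mul_mem_left _ hvI
      · have hle : e0 ≤ u := by
          intro j
          refine Fin.cases ?_ (fun j => ?_) j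
          · rw [e00]
            omega
          · refine Fin.cases ?_ (fun j => ?_) j
            · rw [Fin.succ_zero_eq_one, e01]
              omega
            · rw [e0s]
              exact Nat.zero_le _
        have hsum : (u - e0) + e0 = u := tsub_add_cancel_of_le hle
        have hw1 : Finsupp.weight (wt r) (u - e0) + a = a' := by
          rw [← hwe0, ← map_add, hsum, hu]
        have h4 := Submodule.mem_map_of_mem (f := mulQ I (u - e0) hw1) hmem
        rw [mulQ_cl I (u - e0) e0 hw1 hwe0 (by rw [hsum]; exact hu), Submodule.map_smul''] at h4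
        have h5 : cl I (u - e0 + e0) (by rw [hsum]; exact hu) = cl I u hu := by
          congr 1
        rw [← h5]
        exact Submodule.smul_mono le_rfl le_top h4
    have htop : (⊤ : Submodule T (GradedPiece (wt r) I a')) ≤ M • ⊤ :=
      (cl_mem I _ hmon).ge
    have hfin : Module.Finite T (GradedPiece (wt r) I a') := hL'.1
    obtain ⟨c, hc1, hc2⟩ := Submodule.exists_sub_one_mem_and_smul_eq_zero_of_fg_of_le_smul M
      (⊤ : Submodule T (GradedPiece (wt r) I a')) Module.Finite.fg_top htop
    have hc : c = 0 := LocallyFreeOfRank.faithful (r := 0) hL' c (fun q => hc2 q trivial)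
    apply hM.ne_top
    rw [Ideal.eq_top_iff_one]
    rw [hc, zero_sub] at hc1
    exact neg_mem_iff.1 hc1
  have hspan := span_eq_top hL _ hnot
  -- the monomial `x ^ m y_i`
  obtain ⟨v, hv⟩ : ∃ v : Fin (r + 2) →₀ ℕ,
    v = Finsupp.single 0 m + Finsupp.single i.succ.succ 1 := ⟨_, rfl⟩
  have hwv : Finsupp.weight (wt r) v = a := by
    rw [hWE, ha]
    have h1 : ax v = m := by
      unfold ax
      rw [hv, Finsupp.add_apply, Finsupp.add_apply, Finsupp.single_eq_same, Finsupp.single_apply,
        Finsupp.single_apply, Finsupp.single_apply, if_neg (ne0 i), if_neg one_ne0.symm,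
        if_neg (ne1 i), add_zero, add_zero, add_zero]
    have h2 : bx v = 1 := by
      unfold bx yd
      have h3 : v 1 = 0 := by
        rw [hv, Finsupp.add_apply, Finsupp.single_apply, Finsupp.single_apply,
          if_neg one_ne0.symm, if_neg (ne1 i), add_zero]
      rw [h3, zero_add, Finset.sum_eq_single i]
      · rw [hv, Finsupp.add_apply, Finsupp.single_eq_same, Finsupp.single_apply,
          if_neg (ne0 i).symm, zero_add]
      · intro j _ hj
        rw [hv, Finsupp.add_apply, Finsupp.single_apply, Finsupp.single_apply,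
          if_neg (ne0 j).symm, if_neg, add_zero]
        intro h4
        exact hj (Fin.succ_injective _ (Fin.succ_injective _ h4)).symm
      · intro h4
        exact absurd (Finset.mem_univ i) h4
    rw [h1, h2]
  have hmem : cl I v hwv ∈ Submodule.span T {cl I e0 hwe0} := by
    rw [hspan]
    trivial
  obtain ⟨t, ht⟩ := Submodule.mem_span_singleton.1 hmem
  refine ⟨-t, ?_⟩
  have h1 : monomial v (1 : T) - t • monomial e0 (1 : T) ∈ I := by
    have h2 : (Submodule.Quotient.mk (⟨monomial v 1, isWeightedHomogeneous_monomial (wt r) v 1 hwv⟩ -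
        t • ⟨monomial e0 1, isWeightedHomogeneous_monomial (wt r) e0 1 hwe0⟩ :
          weightedHomogeneousSubmodule T (wt r) a) : GradedPiece (wt r) I a) = 0 := by
      rw [Submodule.Quotient.mk_sub, Submodule.Quotient.mk_smul]
      exact sub_eq_zero.2 ht.symm
    have h3 := (Submodule.Quotient.mk_eq_zero
      ((I.restrictScalars T).comap (weightedHomogeneousSubmodule T (wt r) a).subtype)).1 h2
    exact h3
  have h2 : (X 0 : MvPolynomial (Fin (r + 2)) T) ^ (m - 1) *
      (X 0 * X i.succ.succ + C (-t) * X 1) = monomial v (1 : T) - t • monomial e0 (1 : T) := by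
    have h3 : monomial v (1 : T) = X 0 ^ m * X i.succ.succ := by
      rw [hv, X_pow_eq_monomial, X, monomial_mul, one_mul]
    have h4 : monomial e0 (1 : T) = X 0 ^ (m - 1) * X 1 := by
      rw [he0, X_pow_eq_monomial, X, monomial_mul, one_mul]
    have h5 : (X 0 : MvPolynomial (Fin (r + 2)) T) ^ m = X 0 ^ (m - 1) * X 0 := by
      rw [← pow_succ]
      congr 1
      omega
    rw [h3, h4, h5, smul_eq_C_mul, map_neg]
    ring
  rw [h2]
  exact h1

end Pool.Agent.Y465.FP
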